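import Pool.Agent.Lib.MP_d9c039_lc.F.All

set_option autoImplicit false

namespace Pool.Agent.Results.MP_d9c039_lc.BoundedGuesses

/-- Every c.e. set `A` has a c.e. set `D` of even numbers such that for all `n`:

* `A` cut at `n` is among `2 ^ 48 + 33` guesses computed by one partial computable function from `D`
  cut at `n`;
* `D` cut at `n` is among three guesses computed by one partial computable function from `A` cut at
  `n`. -/
theorem result :
    ∀ A : Set ℕ, REPred (fun n : ℕ => n ∈ A) →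
      ∃ D : Set ℕ, REPred (fun n : ℕ => n ∈ D) ∧ (∀ n ∈ D, Even n) ∧
        (∃ φ : List Bool × ℕ →. List Bool, Partrec φ ∧ ∀ n : ℕ, ∀ τ : List Bool,
          τ.length = n → (∀ i < n, (τ.getD i false = true ↔ i ∈ D)) →
          ∃ j ≤ 2 ^ 48 + 32, ∃ σ ∈ φ (τ, j), σ.length = n ∧
            ∀ i < n, (σ.getD i false = true ↔ i ∈ A)) ∧
        (∃ ψ : List Bool × ℕ →. List Bool, Partrec ψ ∧ ∀ n : ℕ, ∀ τ : List Bool,
          τ.length = n → (∀ i < n, (τ.getD i false = true ↔ i ∈ A)) →
          ∃ j ≤ 2, ∃ σ ∈ ψ (τ, j), σ.length = n ∧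
            ∀ i < n, (σ.getD i false = true ↔ i ∈ D)) :=
  Pool.Agent.D9f.fullU

end Pool.Agent.Results.MP_d9c039_lc.BoundedGuesses
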